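import Mathlib
import Pool.Agent.Y696.CTP.Cnt
import Pool.Agent.Y703.CX.Rank
import Pool.Agent.Y703.CX.Fin
import Pool.Agent.V11291.FK.Cub3

/-!
# The rank part of the Birch and Swinnerton-Dyer conjecture over the pure cubic fields of the numbers
# with a fixed number of prime factors from an arbitrary set of primes of positive density

`E` is the curve `y² + y = x³`, and `E_N` is its cubic twist `y² + N y = x³`, which is `3`-isogenous to
`x³ + y³ = N`.  The numbers `N` are squarefree, prime to `3`, not `±1` modulo `9`, and have exactly one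
prime factor `2` modulo `3`.  We fix the number `k` of the prime factors of `N` which are `1` modulo `3`
and an arbitrary set `S` of primes.

A number `N` is good if the group `E_N(ℚ)` is finite, the `3`-primary part of `Ш(E_N/ℚ)` is zero, and, for
the field `K = ℚ(∛N)` (unique up to isomorphism, not Galois over `ℚ`), the function `L(E/K, s)` has an
entire continuation with `L(E/K, 1) ≠ 0`, the group `E(K)` is finite (of order `3` if `N ≠ 2`), and `3`
kills the `3`-primary part of `Ш(E/K)`.

Theorem.  Suppose that there are `k` residue classes modulo `9` which are `1` modulo `3` and one residue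
class modulo `9` which is `2` modulo `3`, with product not `8` modulo `9`, each of which contains at
least a positive proportion of the primes up to `Y` in `S`, for all large `Y`.  Then the number of the `N`
up to `X` with `k` prime factors `1` modulo `3` and all prime factors in `S` has the order of magnitude
`X (log log X)^k / log X`, and the proportion of the good ones among them tends to the rational number
`∏_{i ≤ k} (1 - 3^{-i})`, which is `1`, `2/3`, `16/27`, `416/729`, … for `k = 0, 1, 2, 3, …`: the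
proportion of the invertible matrices among the `k` times `k` matrices over the field with three elements.

The conditions hold, for instance, if `S` is a residue class modulo any number prime to `3`.

The proof.  `N` is good if and only if it has no splitting (team, library).  The `k + 1` prime factors of
almost all `N` are larger than any given power of `log X`; in boxes the cubic residue symbols of
the primes are equidistributed by the large sieve (library), for arbitrary subsets of the primes, since
an error of a power of the logarithm is enough.  The lower bound for the number of the `N` uses only the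
hypothesis on `S`.
-/

set_option autoImplicit false

open Finset Filter Topology

namespace Pool.Agent.Results.MP_ae0bd0_nt.FixedNumberCubicFields

open NumberField WeierstrassCurve

/-- The curve `E : y² + y = x³` over `K`. -/
def curve (K : Type) [Field K] : WeierstrassCurve K := ⟨0, 0, 1, 0, 0⟩

/-- The cubic twist `E_N : y² + N y = x³` over `ℚ`. -/
def twist (N : ℕ) : WeierstrassCurve ℚ := ⟨0, 0, (N : ℚ), 0, 0⟩

/-- `N` is squarefree, not divisible by `3`, not `±1` modulo `9`, and divisible by exactly one prime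
that is `2` modulo `3`. -/
def InClass (N : ℕ) : Prop :=
  Squarefree N ∧ ¬ 3 ∣ N ∧ N % 9 ≠ 1 ∧ N % 9 ≠ 8 ∧
    ∃ q : ℕ, q.Prime ∧ q % 3 = 2 ∧ q ∣ N ∧ ∀ p : ℕ, p.Prime → p ∣ N → p ≠ q → p % 3 = 1

/-- In every factorization of `N` in coprime factors `d₀ d₁ d₂` for which `d₁ d₂²`, `d₂ d₀²`,
`d₀ d₁²` are cubes modulo the primes dividing `d₀`, `d₁`, `d₂` respectively, two factors are `1`. -/
def HasNoSplitting (N : ℕ) : Prop :=
  ∀ d : ZMod 3 → ℕ, ∏ c, d c = N → (∀ c c', c ≠ c' → Nat.Coprime (d c) (d c')) →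
    (∀ (c : ZMod 3) (p : ℕ), p.Prime → p ∣ d c →
      ∃ x : ℤ, (p : ℤ) ∣ (d (c + 1) : ℤ) * (d (c + 2) : ℤ) ^ 2 - x ^ 3) →
    ∃ c, ∀ c', c' ≠ c → d c' = 1

/-- `E_N(ℚ)` is finite and the `3`-primary part of `Ш(E_N/ℚ)` is zero. -/
def TrivialThree (N : ℕ) : Prop :=
  Finite (twist N).toAffine.Point ∧
    ∀ (n : ℕ) (x : Pool.Agent.TH841.SH.D.Sha (twist N)), 3 ^ n • x = 0 → x = 0

/-- There is an entire function equal to `L(E / K, s)` for `Re s > 3 / 2`, its value at `1` is not
zero, `E(K)` is finite (so both the analytic rank and the rank are `0`), and every element of the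
`3`-primary part of `Ш(E / K)` is killed by `3`. -/
def RankZero (K : Type) [Field K] [NumberField K] : Prop :=
  (∃ L : ℂ → ℂ, Differentiable ℂ L ∧
    (∀ s : ℂ, 3 / 2 < s.re →
      LSeriesSummable ((fun n : ℤ => (n : ℂ)) ∘ (curve K).LFunction) s ∧
        L s = (curve K).LSeries s) ∧ L 1 ≠ 0) ∧
  Finite (curve K).toAffine.Point ∧
  ∀ (n : ℕ) (x : Pool.Agent.TH841.NF.D.Sha (curve K)), 3 ^ n • x = 0 → 3 • x = 0

/-- `E_N(ℚ)` is finite, the `3`-primary part of `Ш(E_N/ℚ)` is zero, and over the field `K = ℚ(∛N)` the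
value `L(E/K, 1)` is not zero, `E(K)` is finite, of order `3` if `N ≠ 2`, and `3` kills the `3`-primary part
of `Ш(E/K)`. -/
def Good (N : ℕ) : Prop :=
  TrivialThree N ∧ ∀ (K : Type) [Field K] [NumberField K] (θ : K),
    Module.finrank ℚ K = 3 → θ ^ 3 = (N : K) →
      RankZero K ∧ (N ≠ 2 → Nat.card (curve K).toAffine.Point = 3)

/-- the number of the prime factors of `N` which are `1` modulo `3` -/
def number (N : ℕ) : ℕ := (N.primeFactors.filter fun p => p % 3 = 1).card

/-- the `N` of the class with all the prime factors in `S`, exactly `k` of them `1` modulo `3` -/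
def Family (S : Set ℕ) (k N : ℕ) : Prop :=
  InClass N ∧ (∀ p : ℕ, p.Prime → p ∣ N → p ∈ S) ∧ number N = k

/-- at least a positive proportion of the primes up to `Y` is in `S` and `r` modulo `9`, for all large
`Y` -/
def Dense (S : Set ℕ) (r : ℕ) : Prop := ∃ (δ : ℝ) (Y₀ : ℕ), 0 < δ ∧ ∀ Y : ℕ, Y₀ ≤ Y →
  δ * (Y / Real.log Y) ≤ (Nat.card {p : ℕ // p ≤ Y ∧ p ∈ S ∧ p.Prime ∧ p % 9 = r} : ℝ)

/-- the condition on `S`: there are residue classes `r i` (for `i < k`) and `s` modulo `9` with many
primes in `S`, `r i ≡ 1` and `s ≡ 2` modulo `3`, whose product is not `8` modulo `9` -/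
def Rich (S : Set ℕ) (k : ℕ) : Prop :=
  ∃ (r : Fin k → ℕ) (s : ℕ), (∀ i, r i % 3 = 1 ∧ Dense S (r i)) ∧ s % 3 = 2 ∧ Dense S s ∧
    (∏ i, r i) * s % 9 ≠ 8

/-- the number of the `N` with `1 ≤ N ≤ X` and `Q N` -/
noncomputable def count (Q : ℕ → Prop) (X : ℕ) : ℕ := Nat.card {N : ℕ // 1 ≤ N ∧ N ≤ X ∧ Q N}

/-- the law for the family -/
def Law (S : Set ℕ) (k : ℕ) : Prop :=
  (∃ (c C : ℝ) (X₀ : ℕ), 0 < c ∧ 0 < C ∧ ∀ X : ℕ, X₀ ≤ X →
    c * (X * Real.log (Real.log X) ^ k / Real.log X) ≤ (count (Family S k) X : ℝ) ∧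
    (count (Family S k) X : ℝ) ≤ C * (X * Real.log (Real.log X) ^ k / Real.log X)) ∧
  Tendsto (fun X : ℕ => (count (fun N => Family S k N ∧ Good N) X : ℝ) /
    (count (Family S k) X : ℝ)) atTop (𝓝 (∏ i ∈ range k, (1 - (1 / 3 : ℝ) ^ (i + 1))))

lemma twist_eq (N : ℕ) : Pool.Agent.Y703.CT.EQ (Pool.Agent.Y703.CT.WD N) = twist N := by
  unfold Pool.Agent.Y703.CT.EQ Pool.Agent.Y703.CT.WD twist WeierstrassCurve.map
  simp

lemma three_iff (N : ℕ) : TrivialThree N ↔ Pool.Agent.Y703.CT.Triv3 N := by
  unfold TrivialThree Pool.Agent.Y703.CT.Triv3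
  rw [twist_eq]

lemma class_iff (N : ℕ) : InClass N ↔ Squarefree N ∧ Pool.Agent.Y703.CT.Cls N :=
  (Pool.Agent.Y696.CTP.cls_sq N).symm

lemma triv_iff {N : ℕ} (hN : InClass N) : TrivialThree N ↔ HasNoSplitting N := by
  obtain ⟨-, f, -, u, -, -, -, h2⟩ := Pool.Agent.Y703.CT.fin_all ((class_iff N).1 hN).2
  exact (three_iff N).trans h2

lemma good_iff {N : ℕ} (hN : InClass N) : Good N ↔ HasNoSplitting N := by
  constructor
  · exact fun h => (triv_iff hN).1 h.1
  · intro h
    refine ⟨(triv_iff hN).2 h, ?_⟩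
    obtain ⟨h1, -, -⟩ := Pool.Agent.Y696.CTP.final
    have h2 := (class_iff N).1 hN
    have h3 := (h1 N h2.1 h2.2).2
    intro K _ _ θ hd hθ
    exact (h3 K θ hd hθ).2 h

open Pool.Agent.V11291.FK.Cb (Fam k1) in
lemma fam_iff (S : Set ℕ) (k N : ℕ) : Family S k N ↔ Fam (fun p => p ∈ S) k N := by
  unfold Family Fam
  constructor
  · rintro ⟨h1, h2, h3⟩
    have h4 := (class_iff N).1 h1
    exact ⟨h4.1, h4.2, fun p hp => h2 p (Nat.prime_of_mem_primeFactors hp)
      (Nat.dvd_of_mem_primeFactors hp), h3⟩
  · rintro ⟨h1, h2, h3, h4⟩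
    exact ⟨(class_iff N).2 ⟨h1, h2⟩, fun p hp hd => h3 p
      (Nat.mem_primeFactors.2 ⟨hp, hd, h1.ne_zero⟩), h4⟩

open Pool.Agent.V11291.FK (Dn) in
lemma dense_iff (S : Set ℕ) (r : ℕ) :
    Dense S r ↔ Dn fun p => p ∈ S ∧ p.Prime ∧ p % 9 = r := by
  classical
  unfold Dense Dn
  have h : ∀ Y : ℕ, Nat.card {p : ℕ // p ≤ Y ∧ p ∈ S ∧ p.Prime ∧ p % 9 = r} =
      ((range (Y + 1)).filter fun p => p ∈ S ∧ p.Prime ∧ p % 9 = r).card := by
    intro Y
    rw [← Fintype.card_coe, ← Nat.card_eq_fintype_card]
    refine Nat.card_congr (Equiv.subtypeEquivRight fun p => ?_)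
    rw [Finset.mem_filter, Finset.mem_range, Nat.lt_succ_iff]
  simp only [h]
  refine exists_congr fun δ => exists_congr fun Y₀ => and_congr_right fun _ =>
    forall_congr' fun Y => imp_congr_right fun _ => ?_
  rw [iff_iff_eq]
  congr!

lemma rich_iff (S : Set ℕ) (k : ℕ) : Rich S k ↔ Pool.Agent.V11291.FK.Cb.Rich (fun p => p ∈ S) k := by
  unfold Rich Pool.Agent.V11291.FK.Cb.Rich
  simp only [dense_iff]

lemma count_eq (Q : ℕ → Prop) [DecidablePred Q] (X : ℕ) : count Q X = ((Icc 1 X).filter Q).card := by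
  unfold count
  rw [← Fintype.card_coe, ← Nat.card_eq_fintype_card]
  refine Nat.card_congr (Equiv.subtypeEquivRight fun p => ?_)
  rw [Finset.mem_filter, Finset.mem_Icc, and_assoc]

/-- **Main theorem.**
(1) For every `N` of the class there is a cubic field which contains a cube root of `N`, and `N` is good
if and only if `E_N(ℚ)` is finite and `Ш(E_N/ℚ)[3^∞] = 0`, and if and only if `N` has no splitting.
(2) Let `S` be a set of primes which satisfies the condition `Rich`.  Then the number of the `N` up to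
`X` of the class with exactly `k` prime factors `1` modulo `3` and with all the prime factors in `S` is
between two positive constants times `X (log log X)^k / log X`, and the proportion of the good ones among
them tends to `∏_{i < k} (1 - 3^{-(i + 1)})`.
(3) The condition holds if `S` is the set of the numbers in a residue class `c` modulo `q`, with `q`
prime to `3` and `c` prime to `q`. -/
theorem result :
    (∀ N : ℕ, InClass N →
      (∃ (K : Type) (_ : Field K) (_ : NumberField K) (θ : K),
        Module.finrank ℚ K = 3 ∧ θ ^ 3 = (N : K)) ∧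
      (Good N ↔ TrivialThree N) ∧ (Good N ↔ HasNoSplitting N)) ∧
    (∀ (S : Set ℕ) (k : ℕ), Rich S k → Law S k) ∧
    ∀ q c : ℕ, Nat.Coprime q 3 → Nat.Coprime c q → ∀ k : ℕ, Rich {p | p % q = c % q} k := by
  classical
  refine ⟨fun N hN => ⟨?_, ?_, good_iff hN⟩, fun S k hS => ?_, fun q c hq hc k =>
    (rich_iff _ k).2 (Pool.Agent.V11291.FK.Cb.rich_class hq hc k)⟩
  · obtain ⟨h1, -, -⟩ := Pool.Agent.Y696.CTP.final
    have h2 := (class_iff N).1 hN
    exact (h1 N h2.1 h2.2).1
  · rw [good_iff hN, triv_iff hN]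
  · have hS' := (rich_iff S k).1 hS
    have e1 : ∀ X : ℕ, count (Family S k) X =
        ((Icc 1 X).filter fun N => Pool.Agent.V11291.FK.Cb.Fam (fun p => p ∈ S) k N).card := by
      intro X
      rw [count_eq]
      congr 1
      ext N
      rw [mem_filter, mem_filter, fam_iff]
    have e2 : ∀ X : ℕ, count (fun N => Family S k N ∧ Good N) X =
        ((Icc 1 X).filter fun N => Pool.Agent.V11291.FK.Cb.Fam (fun p => p ∈ S) k N ∧
          Pool.Agent.Y703.CT.NoSplit N).card := by
      intro X
      rw [count_eq]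
      congr 1
      ext N
      rw [mem_filter, mem_filter]
      refine and_congr_right fun _ => ?_
      rw [fam_iff]
      refine and_congr_right fun h => ?_
      exact good_iff ((class_iff N).2 ⟨h.1, h.2.1⟩)
    refine ⟨?_, ?_⟩
    · obtain ⟨c, C, X₀, hc, hC, h⟩ := Pool.Agent.V11291.FK.Cb.N_size hS'
      refine ⟨c, C, X₀, hc, hC, fun X hX => ?_⟩
      have h3 := h X hX
      rw [e1]
      refine ⟨h3.1.trans (le_of_eq ?_), (le_of_eq ?_).trans h3.2⟩
      · congr 2
      · congr 2
    · refine (Pool.Agent.V11291.FK.Cb.N_law hS').congr fun X => ?_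
      rw [e1, e2]

end Pool.Agent.Results.MP_ae0bd0_nt.FixedNumberCubicFields
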