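import Pool.Agent.Y18.NF.Main
import Pool.Agent.Results.MP_6dc9d1_nt.InfiniteAbelianTowers

/-!
# Rank zero over a positive proportion of the multiquadratic fields of degree `2ⁿ`

`E_i : y² = x³ + a_i x + b_i` (`i = 1, …, m`) are arbitrary elliptic curves over `ℚ` with
`L(E_i, 1) ≠ 0`, given with their newforms, and `n` is an integer. A prime `q` is admissible if it does
not divide `2 Δ_i`, and `x³ + a_i x + b_i` has no root modulo `q`, for all `i`. For a finite set `T`
of admissible primes let `d_T = ∏ q*`, `q* = ± q ≡ 1 mod 4`, the fundamental discriminant with the prime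
divisors `q ∈ T`. An `n`-tuple `T_1, …, T_n` of such sets is good if for all number fields
`F ⊆ ℚ(√d_{T_1}, …, √d_{T_n})` and all `i` the Hasse-Weil `L`-function `L(E_i / F, s)` is entire and
does not vanish at `s = 1`.

Theorem: there is a number `V`, which depends only on the curves and `n`, such that

* for every finite set `P` of admissible primes at least the proportion `2^{-V}` of the `n`-tuples of
  subsets of `P` is good;
* for some `C` and all `X` the number of the good `n`-tuples with `|d_{T_j}| ≤ C X` is at least `2^{-V}`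
  times the number of all `n`-tuples with `|d_{T_j}| ≤ X`.

By Kato's theorem the groups `E_i(F)` are finite for the good tuples, so that the rank conjecture
holds for all `E_i` over all these fields `F`, both sides being zero.
-/

set_option autoImplicit false

open Complex UpperHalfPlane MatrixGroups CongruenceSubgroup NumberField IsDedekindDomain
open scoped symmDiff

namespace Pool.Agent.Results.MP_ae0bd0_nt.MultiquadraticProportion

open Pool.Agent.Results.MP_6dc9d1_nt.InfiniteAbelianTowers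
  (GoodPrime AnalyticRankZero IsFormOf NonvanishingOver nonvanishing_of)

/-- `q` is a prime with `q ∤ 2Δ`, and `x³ + a x + b` has no root modulo `q`. -/
def Admissible (a b : ℤ) (q : ℕ) : Prop :=
  GoodPrime a b q ∧ ∀ x : ZMod q, x ^ 3 + (a : ZMod q) * x + (b : ZMod q) ≠ 0

/-- The discriminant `d_T = ∏_{q ∈ T} (-1)^((q-1)/2) q`. -/
def disc (T : Finset ℕ) : ℤ := ∏ q ∈ T, (-1 : ℤ) ^ ((q - 1) / 2) * q

section

variable {m n : ℕ} (a b : Fin m → ℤ) {N : Fin m → ℕ}
  (f : (i : Fin m) → CuspForm (Gamma0 (N i) : Subgroup (GL (Fin 2) ℝ)) 2)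

/-- All primes in the sets `T j` are admissible for all the curves. -/
def AdmissibleTuple (T : Fin n → Finset ℕ) : Prop :=
  ∀ j, ∀ q ∈ T j, ∀ i, Admissible (a i) (b i) q

/-- For all number fields `F ⊆ ℚ(√d_{T_1}, …, √d_{T_n})` and all `i` the function `L(E_i / F, s)` is entire
and `L(E_i / F, 1) ≠ 0`. -/
def Good (T : Fin n → Finset ℕ) : Prop :=
  ∀ (F : IntermediateField ℚ ℂ) [NumberField F],
    F ≤ IntermediateField.adjoin ℚ {z : ℂ | ∃ j, z ^ 2 = ((disc (T j) : ℤ) : ℂ)} →
    ∀ i, NonvanishingOver F (a i) (b i) (f i)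

end

/-- counting up to a finite group of corrections -/
theorem count {α : Type} (A B : Set α) (K : Finset α) (op : α → α → α)
    (hop : ∀ T k, op (op T k) k = T) (hB : B.Finite) (h : ∀ T ∈ A, ∃ k ∈ K, op T k ∈ B) :
    A.ncard ≤ K.card * B.ncard := by
  classical
  set I : Finset α := (K ×ˢ hB.toFinset).image fun p => op p.2 p.1 with hI
  have hAI : A ⊆ (I : Set α) := by
    intro T hT
    obtain ⟨k, hk, hk2⟩ := h T hT
    rw [Finset.mem_coe, hI, Finset.mem_image]
    exact ⟨(k, op T k), Finset.mem_product.2 ⟨hk, (Set.Finite.mem_toFinset hB).2 hk2⟩, hop T k⟩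
  calc A.ncard ≤ (I : Set α).ncard := Set.ncard_le_ncard hAI I.finite_toSet
    _ = I.card := Set.ncard_coe_finset I
    _ ≤ (K ×ˢ hB.toFinset).card := Finset.card_image_le
    _ = K.card * B.ncard := by
        rw [Finset.card_product, Set.ncard_eq_toFinset_card B hB]

/-- the sum of two sets of primes has a bounded product -/
theorem prod_symmDiff {S T : Finset ℕ} (hS : ∀ q ∈ S, 1 ≤ q) (hT : ∀ q ∈ T, 1 ≤ q) :
    ∏ q ∈ S ∆ T, q ≤ (∏ q ∈ S, q) * ∏ q ∈ T, q := by
  classical
  have h1 : ∏ q ∈ S ∆ T, q = (∏ q ∈ S \ T, q) * ∏ q ∈ T \ S, q := by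
    have : S ∆ T = (S \ T) ∪ (T \ S) := rfl
    rw [this, Finset.prod_union]
    exact disjoint_sdiff_sdiff
  rw [h1]
  refine Nat.mul_le_mul ?_ ?_
  · exact Finset.prod_le_prod_of_subset_of_one_le' Finset.sdiff_subset fun q hq _ => hS q hq
  · exact Finset.prod_le_prod_of_subset_of_one_le' Finset.sdiff_subset fun q hq _ => hT q hq

/-- the tuples of sets with bounded products are finitely many -/
theorem finite_tuples (n X : ℕ) :
    {T : Fin n → Finset ℕ | (∀ j, ∀ q ∈ T j, 1 ≤ q) ∧ ∀ j, ∏ q ∈ T j, q ≤ X}.Finite := by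
  classical
  refine (Set.finite_mem_finset (Fintype.piFinset fun _ : Fin n =>
    (Finset.range (X + 1)).powerset)).subset fun T hT => ?_
  rw [Set.mem_ofPred_eq, Fintype.mem_piFinset]
  intro j
  rw [Finset.mem_powerset]
  intro q hq
  rw [Finset.mem_range]
  have h1 : q ≤ ∏ q ∈ T j, q := Finset.single_le_prod' (f := fun q => q)
    (fun r hr => hT.1 j r hr) hq
  have h2 := hT.2 j
  omega

/-- **Theorem.** Let `E_i : y² = x³ + a_i x + b_i`, `i = 1, …, m`, be elliptic curves over `ℚ` with
newforms `f_i` and `L(E_i, 1) ≠ 0`, and `n` an integer. There is a number `V` such that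
(1) for every finite set `P` of admissible primes at least `2^{-V}` of the `(2^{|P|})ⁿ` `n`-tuples of
subsets of `P` are good;
(2) there is a number `C` such that for all `X` the number of the `n`-tuples of finite sets of
admissible primes with products at most `X` is at most `2^V` times the number of the good `n`-tuples
with products at most `C X`. -/
theorem result (m n : ℕ) (a b : Fin m → ℤ) (hΔ : ∀ i, 4 * a i ^ 3 + 27 * b i ^ 2 ≠ 0)
    (N : Fin m → ℕ) (hN : ∀ i, N i ≠ 0)
    (f : (i : Fin m) → CuspForm (Gamma0 (N i) : Subgroup (GL (Fin 2) ℝ)) 2)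
    (hf : ∀ i, IsFormOf (a i) (b i) (N i) (f i)) (h0 : ∀ i, AnalyticRankZero (a i) (b i)) :
    ∃ V : ℕ,
      (∀ P : Finset ℕ, (∀ q ∈ P, ∀ i, Admissible (a i) (b i) q) →
        (2 ^ P.card) ^ n ≤ 2 ^ V * {T : Fin n → Finset ℕ | (∀ j, T j ⊆ P) ∧ Good a b f T}.ncard) ∧
      ∃ C : ℕ, ∀ X : ℕ,
        {T : Fin n → Finset ℕ | AdmissibleTuple a b T ∧ ∀ j, ∏ q ∈ T j, q ≤ X}.ncard ≤
          2 ^ V * {T : Fin n → Finset ℕ | AdmissibleTuple a b T ∧ (∀ j, ∏ q ∈ T j, q ≤ C * X) ∧
            Good a b f T}.ncard := by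
  classical
  have : ∀ i, NeZero (N i) := fun i => ⟨hN i⟩
  obtain ⟨V, hV⟩ := Pool.Agent.Y18.NF.mq_main m n a b hΔ N f
    (fun i => ⟨(hf i).one, (hf i).real, (hf i).mul, (hf i).pow, (hf i).good, (hf i).bad,
      (hf i).fricke, (hf i).points⟩) h0
  have hop : ∀ T k : Fin n → Finset ℕ,
      (fun (S k : Fin n → Finset ℕ) j => S j ∆ k j) ((fun (S k : Fin n → Finset ℕ) j => S j ∆ k j) T k)
        k = T := by
    intro T k
    funext j
    simp only
    rw [symmDiff_assoc, symmDiff_self, symmDiff_bot]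
  refine ⟨V, fun P hP => ?_, ?_⟩
  · obtain ⟨K, hK1, -, -, hK4, hK5⟩ := hV {T | T ⊆ P} (Finset.empty_subset P)
      (fun S hS T hT => by
        intro q hq
        rw [Finset.mem_symmDiff] at hq
        rcases hq with h | h
        · exact hS h.1
        · exact hT h.1)
      (fun T hT q hq i => hP q (hT hq) i)
    have hfin : {T : Fin n → Finset ℕ | (∀ j, T j ⊆ P) ∧ Good a b f T}.Finite := by
      refine (Set.finite_mem_finset (Fintype.piFinset fun _ : Fin n => P.powerset)).subset
        fun T hT => ?_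
      rw [Set.mem_ofPred_eq, Fintype.mem_piFinset]
      exact fun j => Finset.mem_powerset.2 (hT.1 j)
    have h1 := count {T : Fin n → Finset ℕ | ∀ j, T j ⊆ P}
      {T : Fin n → Finset ℕ | (∀ j, T j ⊆ P) ∧ Good a b f T} K
      (fun (S k : Fin n → Finset ℕ) j => S j ∆ k j) hop hfin (fun T hT => by
        obtain ⟨k, hk, hk2⟩ := hK5 T hT
        refine ⟨k, hk, fun j => ?_, fun F _ hF i => nonvanishing_of (hk2 F hF i)⟩
        intro q hq
        rw [Finset.mem_symmDiff] at hq
        rcases hq with h | h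
        · exact hT j h.1
        · exact hK4 k hk j h.1)
    have h2 : {T : Fin n → Finset ℕ | ∀ j, T j ⊆ P}.ncard = (2 ^ P.card) ^ n := by
      have h3 : {T : Fin n → Finset ℕ | ∀ j, T j ⊆ P} =
          ((Fintype.piFinset fun _ : Fin n => P.powerset : Finset (Fin n → Finset ℕ)) :
            Set (Fin n → Finset ℕ)) := by
        ext T
        rw [Finset.mem_coe, Fintype.mem_piFinset]
        simp only [Set.mem_ofPred_eq, Finset.mem_powerset]
      rw [h3, Set.ncard_coe_finset, Fintype.card_piFinset_const, Finset.card_powerset]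
    rw [h2] at h1
    exact h1.trans (Nat.mul_le_mul_right _ hK1)
  · obtain ⟨K, hK1, -, -, hK4, hK5⟩ := hV {T | ∀ q ∈ T, ∀ i, Admissible (a i) (b i) q}
      (fun q hq => absurd hq (Finset.notMem_empty q))
      (fun S hS T hT => by
        intro q hq
        rw [Finset.mem_symmDiff] at hq
        rcases hq with h | h
        · exact hS q h.1
        · exact hT q h.1)
      (fun T hT q hq i => hT q hq i)
    by_cases hm : Nonempty (Fin m)
    · obtain ⟨i₀⟩ := hm
      have hone : ∀ T : Fin n → Finset ℕ, AdmissibleTuple a b T → ∀ j, ∀ q ∈ T j, 1 ≤ q :=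
        fun T hT j q hq => (hT j q hq i₀).1.1.one_le
      obtain ⟨C, hC⟩ : ∃ C : ℕ, ∀ k ∈ K, ∀ j, ∏ q ∈ k j, q ≤ C := by
        refine ⟨∑ k ∈ K, ∑ j, ∏ q ∈ k j, q, fun k hk j => ?_⟩
        have h3 : ∏ q ∈ k j, q ≤ ∑ j, ∏ q ∈ k j, q :=
          Finset.single_le_sum (f := fun j => ∏ q ∈ k j, q) (fun _ _ => Nat.zero_le _)
            (Finset.mem_univ j)
        have h4 : ∑ j, ∏ q ∈ k j, q ≤ ∑ k ∈ K, ∑ j, ∏ q ∈ k j, q :=
          Finset.single_le_sum (f := fun k : Fin n → Finset ℕ => ∑ j, ∏ q ∈ k j, q)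
            (fun _ _ => Nat.zero_le _) hk
        exact h3.trans h4
      refine ⟨C, fun X => ?_⟩
      have hfin : {T : Fin n → Finset ℕ | AdmissibleTuple a b T ∧ (∀ j, ∏ q ∈ T j, q ≤ C * X) ∧
          Good a b f T}.Finite := by
        refine (finite_tuples n (C * X)).subset fun T hT => ⟨fun j q hq => ?_, hT.2.1⟩
        exact hone T hT.1 j q hq
      refine (count {T : Fin n → Finset ℕ | AdmissibleTuple a b T ∧ ∀ j, ∏ q ∈ T j, q ≤ X}
        {T : Fin n → Finset ℕ | AdmissibleTuple a b T ∧ (∀ j, ∏ q ∈ T j, q ≤ C * X) ∧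
          Good a b f T} K (fun (S k : Fin n → Finset ℕ) j => S j ∆ k j) hop hfin
        (fun T hT => ?_)).trans (Nat.mul_le_mul_right _ hK1)
      obtain ⟨k, hk, hk2⟩ := hK5 T hT.1
      refine ⟨k, hk, ?_, fun j => ?_, fun F _ hF i => nonvanishing_of (hk2 F hF i)⟩
      · intro j q hq
        rw [Finset.mem_symmDiff] at hq
        rcases hq with h | h
        · exact hT.1 j q h.1
        · exact hK4 k hk j q h.1
      · have h5 := prod_symmDiff (hone T hT.1 j) (fun q hq => (hK4 k hk j q hq i₀).1.1.one_le)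
        refine h5.trans ?_
        rw [mul_comm]
        exact Nat.mul_le_mul (hC k hk j) (hT.2 j)
    · -- no curves: every tuple is good
      refine ⟨1, fun X => ?_⟩
      have hgood : ∀ T : Fin n → Finset ℕ, Good a b f T := fun T F _ _ i => absurd ⟨i⟩ hm
      have : {T : Fin n → Finset ℕ | AdmissibleTuple a b T ∧ (∀ j, ∏ q ∈ T j, q ≤ 1 * X) ∧
          Good a b f T} = {T : Fin n → Finset ℕ | AdmissibleTuple a b T ∧ ∀ j, ∏ q ∈ T j, q ≤ X} := by
        ext T
        simp only [Set.mem_ofPred_eq, one_mul]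
        exact ⟨fun h => ⟨h.1, h.2.1⟩, fun h => ⟨h.1, h.2, hgood T⟩⟩
      rw [this]
      exact Nat.le_mul_of_pos_left _ (by positivity)

end Pool.Agent.Results.MP_ae0bd0_nt.MultiquadraticProportion
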