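import Pool.Agent.W263.BSD.Lead8

/-!
# The order of magnitude of the Birch and Swinnerton-Dyer product and one-sided doubling

Let `C : y² = x³ + a x + b` be an elliptic curve over `ℚ`, `a, b ∈ ℤ`, `N_p` the number of affine points
modulo the good primes `p ∤ 2Δ`, `P(x) = ∏_{p ≤ x, p ∤ 2Δ} (N_p + 1)/p` the original product of Birch and
Swinnerton-Dyer, and `F` the entire continuation of the incomplete `L`-series.

The product has the order of magnitude expected by Birch and Swinnerton-Dyer, `P(x) ≍ (log x)^rank`, if and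
only if the rank form `ord_{s=1} F = rank C(ℚ)` holds and `P` is doubling from above: there is `K` with
`P(y) ≤ K P(x)` for `x ≤ y ≤ x²`, `x` large; and if and only if the rank form holds, `F` has no REAL zeros
`s > 1`, and `P` is doubling from below, `P(x) ≤ K P(y)` for `x ≤ y ≤ x²`. Each of these conditions implies
that `F` has no zeros with `Re s > 1`. In general `P(x) ≍ (log x)^m` forces `m = ord_{s=1} F`.

So apart from the rank form only a bound for the products `∏_{x < p ≤ y} (N_p + 1)/p`, `y ≤ x²`, in ONE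
direction is needed. Goldfeld (1982) deduced the order and the absence of zeros from the asymptotic
formula `P(x) ∼ A (log x)^m`. The one-sided Tauberian theorem is proved in the library
(`Pool.Agent.W263.BSD`).
-/

set_option autoImplicit false

namespace Pool.Agent.Results.MP_ae0bd0_nt.OneSidedDoubling

open Pool.Agent.W263.BSD Filter Topology Classical

/-- The original product `P(x) = ∏_{p ≤ x, p ∤ 2Δ} (N_p + 1)/p`. -/
noncomputable def P (a b : ℤ) (x : ℝ) : ℝ :=
  ∏ p ∈ (Finset.range (⌊x⌋₊ + 1)).filter (GoodPrime a b), (((pointCount a b p : ℝ) + 1) / p)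

/-- `P(x) ≍ (log x)^m`. -/
def ExactOrder (a b : ℤ) (m : ℕ) : Prop :=
  ∃ c C : ℝ, 0 < c ∧ ∀ᶠ x : ℝ in atTop, c * Real.log x ^ m ≤ P a b x ∧
    P a b x ≤ C * Real.log x ^ m

/-- Doubling from above: `P(y) ≤ K P(x)` for `x ≤ y ≤ x²`. -/
def DoublingAbove (a b : ℤ) : Prop :=
  ∃ K : ℝ, ∀ᶠ x : ℝ in atTop, ∀ y, x ≤ y → y ≤ x ^ 2 → P a b y ≤ K * P a b x

/-- Doubling from below: `P(x) ≤ K P(y)` for `x ≤ y ≤ x²`. -/
def DoublingBelow (a b : ℤ) : Prop :=
  ∃ K : ℝ, ∀ᶠ x : ℝ in atTop, ∀ y, x ≤ y → y ≤ x ^ 2 → P a b x ≤ K * P a b y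

/-- The rank of the group of rational points of `y² = x³ + a x + b`. -/
noncomputable def rank (a b : ℤ) : ℕ :=
  Module.finrank ℤ
    (WeierstrassCurve.Affine.Point
      (WeierstrassCurve.toAffine
        ({ a₁ := 0, a₂ := 0, a₃ := 0, a₄ := (a : ℚ), a₆ := (b : ℚ) } : WeierstrassCurve ℚ)))

variable {a b : ℤ} {F : ℂ → ℂ}

/-- The exact order implies doubling from above. -/
theorem doubling_of {m : ℕ} (h : ExactOrder a b m) : DoublingAbove a b := by
  obtain ⟨c, C, hc, h⟩ := h
  obtain ⟨X, hX⟩ := eventually_atTop.mp h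
  refine ⟨|C| * 2 ^ m / c, ?_⟩
  filter_upwards [eventually_ge_atTop (max X (Real.exp 1))] with x hx y h1 h2
  have hx1 : Real.exp 1 ≤ x := (le_max_right _ _).trans hx
  have hx0 : 0 < x := lt_of_lt_of_le (Real.exp_pos 1) hx1
  have hl : 1 ≤ Real.log x := by rwa [Real.le_log_iff_exp_le hx0]
  have e1 := (hX x ((le_max_left _ _).trans hx)).1
  have e2 := (hX y (((le_max_left _ _).trans hx).trans h1)).2
  have hly : Real.log y ≤ 2 * Real.log x := by
    have := Real.log_le_log (by linarith) h2
    rwa [Real.log_pow] at this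
  have hly0 : 0 ≤ Real.log y := Real.log_nonneg (by
    have := Real.one_le_exp (zero_le_one : (0 : ℝ) ≤ 1)
    linarith)
  calc P a b y ≤ C * Real.log y ^ m := e2
    _ ≤ |C| * (2 * Real.log x) ^ m := by
        refine mul_le_mul (le_abs_self C) (pow_le_pow_left₀ hly0 hly m) (by positivity)
          (abs_nonneg _)
    _ = |C| * 2 ^ m / c * (c * Real.log x ^ m) := by rw [mul_pow]; field_simp
    _ ≤ |C| * 2 ^ m / c * P a b x := by gcongr

/-- The exact order determines the order of vanishing. -/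
theorem order_of (hF : IsLSeries a b F) {m : ℕ} (h : ExactOrder a b m) :
    analyticOrderAt F 1 = m := by
  obtain ⟨r, hr⟩ := order_finite hF
  obtain ⟨c', C', hc', h'⟩ := ((order_tfae hF hr).out 1 0).1 (doubling_of h)
  obtain ⟨c, C, hc, h⟩ := h
  have key : ∀ (i j : ℕ) (c C : ℝ), 0 < c → (∀ᶠ x : ℝ in atTop, c * Real.log x ^ i ≤
      C * Real.log x ^ j) → i ≤ j := by
    intro i j c C hc h
    by_contra hij
    rw [not_le] at hij
    obtain ⟨k, hk, rfl⟩ : ∃ k, 0 < k ∧ i = j + k := ⟨i - j, by omega, by omega⟩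
    have h1 : Tendsto (fun x : ℝ => Real.log x ^ k) atTop atTop :=
      (tendsto_pow_atTop hk.ne').comp Real.tendsto_log_atTop
    obtain ⟨x, hx1, hx2, hx3⟩ := (h.and ((h1.eventually_gt_atTop (C / c)).and
      (eventually_gt_atTop (Real.exp 1)))).exists
    have hx0 : 0 < x := (Real.exp_pos 1).trans hx3
    have hl : 1 < Real.log x := by rwa [Real.lt_log_iff_exp_lt hx0]
    have hj : 0 < Real.log x ^ j := by positivity
    rw [pow_add] at hx1
    rw [div_lt_iff₀ hc] at hx2
    have hx4 : Real.log x ^ j * (c * Real.log x ^ k) ≤ Real.log x ^ j * C := by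
      calc _ = c * (Real.log x ^ j * Real.log x ^ k) := by ring
        _ ≤ C * Real.log x ^ j := hx1
        _ = _ := by ring
    have := le_of_mul_le_mul_left hx4 hj
    linarith
  have h1 : r ≤ m := key r m c' C hc' (by
    filter_upwards [h, h'] with x h1 h2
    exact h2.1.trans h1.2)
  have h2 : m ≤ r := key m r c C' hc (by
    filter_upwards [h, h'] with x h1 h2
    exact h1.1.trans h2.2)
  rw [hr, le_antisymm h1 h2]

theorem main (hF : IsLSeries a b F) (m : ℕ) :
    List.TFAE [
      ExactOrder a b m,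
      analyticOrderAt F 1 = m ∧ DoublingAbove a b,
      analyticOrderAt F 1 = m ∧ (∀ s : ℝ, 1 < s → F s ≠ 0) ∧ DoublingBelow a b] := by
  tfae_have 1 → 2 := by
    intro h
    exact ⟨order_of hF h, doubling_of h⟩
  tfae_have 1 → 3 := by
    intro h
    have h1 := order_of hF h
    exact ⟨h1, ((order_tfae hF h1).out 0 2).1 h⟩
  tfae_have 2 → 1 := by
    rintro ⟨h1, h2⟩
    exact ((order_tfae hF h1).out 1 0).1 h2
  tfae_have 3 → 1 := by
    rintro ⟨h1, h2⟩
    exact ((order_tfae hF h1).out 2 0).1 h2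
  tfae_finish

/-- **Theorem.** Let `F` be the entire continuation of the incomplete `L`-series of
`C : y² = x³ + a x + b`. For every natural number `m`, in particular for the rank of `C(ℚ)`, are
equivalent: `P(x) ≍ (log x)^m`; `ord_{s=1} F = m` and `P` is doubling from above; `ord_{s=1} F = m`, `F` has
no real zeros `s > 1` and `P` is doubling from below. If these conditions hold, `F` has no zeros with
`Re s > 1`. -/
theorem result (a b : ℤ) (F : ℂ → ℂ) (hF : IsLSeries a b F) :
    (∀ m : ℕ, List.TFAE [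
      ExactOrder a b m,
      analyticOrderAt F 1 = m ∧ DoublingAbove a b,
      analyticOrderAt F 1 = m ∧ (∀ s : ℝ, 1 < s → F s ≠ 0) ∧ DoublingBelow a b]) ∧
    (ExactOrder a b (rank a b) ↔ analyticOrderAt F 1 = rank a b ∧ DoublingAbove a b) ∧
    (DoublingAbove a b → ∀ s : ℂ, 1 < s.re → F s ≠ 0) := by
  refine ⟨fun m => main hF m, (main hF (rank a b)).out 0 1, fun h s hs => ?_⟩
  obtain ⟨r, hr⟩ := order_finite hF
  have h0 : ExactOrder a b r := by
    have h2 : ExactOrder a b r ↔ analyticOrderAt F 1 = r ∧ DoublingAbove a b := (main hF r).out 0 1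
    exact h2.2 ⟨hr, h⟩
  obtain ⟨c, C, -, h1⟩ := h0
  exact no_zeros_of_order hF (h1.mono fun x hx => hx.2) hs

end Pool.Agent.Results.MP_ae0bd0_nt.OneSidedDoubling
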