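import Pool.Agent.Results.MP_ae0bd0_nt.FixedNumberCubicFields
import Pool.Agent.V1176.SQ.Ratio
import Pool.Agent.V1176.SQ.Low

/-!
# The rank part of the Birch and Swinnerton-Dyer conjecture over the pure cubic fields of the numbers
# `⌊α n^c⌋` with a fixed number of prime factors

`E` is the curve `y² + y = x³`, `E_N` its cubic twist `y² + N y = x³`.  The families of numbers `N` and
the property `Good N` are those of the file `FixedNumberCubicFields` of this problem: `N` is squarefree,
prime to `3`, not `±1` modulo `9`, has one prime factor `2` modulo `3` and `k` prime factors `1` modulo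
`3`, all of them in a given set `S` of primes; `Good N` says that `E_N(ℚ)` is finite, `Ш(E_N/ℚ)[3^∞]` is
zero and that over the pure cubic field `K = ℚ(∛N)` the value `L(E/K, 1)` is not zero, `E(K)` is finite
and `3` kills `Ш(E/K)[3^∞]`.

That file finds the proportion of the good `N` among all the numbers up to `X` of the family.  Here the
`N` run through a sequence of density zero: let `c > 1` be a real number and `S_0, S_1, …` a sequence of
sets of primes.  There is a set `E` of real numbers of Hausdorff dimension less than `1` such that for all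
`α > 0` outside `E`, all `i` and all `k`: if `S_i` satisfies the condition `Rich` for `k`, then for at least
`κ N / log N` of the `n ≤ N` the number `⌊α n^c⌋` belongs to the family of `S_i` and `k`, and the
proportion of the `n ≤ N` with a good number `⌊α n^c⌋` among them tends to the same rational number
`∏_{i ≤ k} (1 - 3^{-i})`.
-/

set_option autoImplicit false

open Finset Filter Topology

namespace Pool.Agent.Results.MP_ae0bd0_nt.SparseSequences

open Pool.Agent.Results.MP_ae0bd0_nt.FixedNumberCubicFields (Family Good Rich Law count)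

/-- the number of the `n` with `1 ≤ n ≤ N` for which the number `⌊α n ^ c⌋` has the property `Q` -/
noncomputable def along (α c : ℝ) (Q : ℕ → Prop) (N : ℕ) : ℕ :=
  Nat.card {n : ℕ // 1 ≤ n ∧ n ≤ N ∧ Q ⌊α * (n : ℝ) ^ c⌋₊}

/-- **The proportion of the good numbers in sparse sequences.** -/
theorem result (c : ℝ) (hc : 1 < c) (S : ℕ → Set ℕ) :
    ∃ E : Set ℝ, dimH E < 1 ∧ ∀ α : ℝ, 0 < α → α ∉ E → ∀ i k : ℕ, Rich (S i) k →
      (∃ (κ : ℝ) (N₀ : ℕ), 0 < κ ∧ ∀ N : ℕ, N₀ ≤ N →
        κ * N / Real.log N ≤ (along α c (Family (S i) k) N : ℝ)) ∧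
      Tendsto (fun N : ℕ => (along α c (fun t => Family (S i) k t ∧ Good t) N : ℝ) /
        (along α c (Family (S i) k) N : ℝ)) atTop (𝓝 (∏ j ∈ range k, (1 - (1 / 3 : ℝ) ^ (j + 1)))) := by
  obtain ⟨E, hE, h⟩ := Pool.Agent.V1176.SQ.ratioS c hc
    (fun (x : ℕ × ℕ) t => Family (S x.1) x.2 t ∧ Good t) (fun (x : ℕ × ℕ) t => Family (S x.1) x.2 t)
  refine ⟨E, hE, fun α hα hαE i k hR => ?_⟩
  obtain ⟨-, hlaw, -⟩ := Pool.Agent.Results.MP_ae0bd0_nt.FixedNumberCubicFields.result
  obtain ⟨⟨δ, C, X₀, hδ, hC, hsize⟩, hlim⟩ := hlaw (S i) k hR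
  obtain ⟨X₁, hlow⟩ := Pool.Agent.V1176.SQ.low_of hδ k (f := fun X =>
    (Nat.card {t : ℕ // 1 ≤ t ∧ t ≤ X ∧ Family (S i) k t} : ℝ)) fun X hX => (hsize X hX).1
  obtain ⟨⟨κ, hκ, N₀, h1⟩, h2⟩ := h α hα hαE (i, k) δ
    (∏ j ∈ range k, (1 - (1 / 3 : ℝ) ^ (j + 1))) X₁ hδ hlow hlim
  exact ⟨⟨κ, N₀, hκ, h1⟩, h2⟩

end Pool.Agent.Results.MP_ae0bd0_nt.SparseSequences
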